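import Mathlib

/-!
# Counting paths of a relation with bounded degrees and codegrees at most one
-/

set_option autoImplicit false

open scoped BigOperators Classical

noncomputable section

namespace Pool.Agent.Helper48NP

variable {V : Type} [Fintype V]

/-- number of paths with `g` steps from `a` to `b` -/
def pn (R : V → V → Prop) : ℕ → V → V → ℝ
  | 0, a, b => if a = b then 1 else 0
  | g + 1, a, b => ∑ x, (if R a x then 1 else 0) * pn R g x b

lemma pn_nonneg (R : V → V → Prop) : ∀ (g : ℕ) (a b : V), 0 ≤ pn R g a b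
  | 0, a, b => by
    show (0 : ℝ) ≤ if a = b then 1 else 0
    split_ifs <;> norm_num
  | g + 1, a, b => by
    show (0 : ℝ) ≤ ∑ x, (if R a x then 1 else 0) * pn R g x b
    refine Finset.sum_nonneg fun x _ => mul_nonneg ?_ (pn_nonneg R g x b)
    split_ifs <;> norm_num

lemma pn_one (R : V → V → Prop) (a b : V) : pn R 1 a b = if R a b then 1 else 0 := by
  show ∑ x, (if R a x then (1 : ℝ) else 0) * (if x = b then 1 else 0) = _
  rw [Finset.sum_eq_single b]
  · rw [if_pos rfl, mul_one]
  · intro x _ hx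
    rw [if_neg hx, mul_zero]
  · intro h
    exact absurd (Finset.mem_univ b) h

lemma pn_add (R : V → V → Prop) : ∀ (g h : ℕ) (a b : V),
    pn R (g + h) a b = ∑ x, pn R g a x * pn R h x b
  | 0, h, a, b => by
    rw [Nat.zero_add, Finset.sum_eq_single a]
    · show _ = (if a = a then (1 : ℝ) else 0) * _
      rw [if_pos rfl, one_mul]
    · intro x _ hx
      show (if a = x then (1 : ℝ) else 0) * _ = 0
      rw [if_neg (fun h => hx h.symm), zero_mul]
    · intro h
      exact absurd (Finset.mem_univ a) h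
  | g + 1, h, a, b => by
    rw [Nat.succ_add_eq_add_succ, Nat.add_succ]
    show ∑ x, (if R a x then (1 : ℝ) else 0) * pn R (g + h) x b =
      ∑ x, (∑ y, (if R a y then (1 : ℝ) else 0) * pn R g y x) * pn R h x b
    simp only [pn_add R g h, Finset.mul_sum, Finset.sum_mul]
    rw [Finset.sum_comm]
    refine Finset.sum_congr rfl fun x _ => Finset.sum_congr rfl fun y _ => ?_
    ring

lemma pn_succ' (R : V → V → Prop) (g : ℕ) (a b : V) :
    pn R (g + 1) a b = ∑ x, pn R g a x * (if R x b then 1 else 0) := by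
  rw [pn_add]
  simp only [pn_one]

/-- degrees at most `d` -/
structure DegOk (R : V → V → Prop) (d : ℝ) : Prop where
  out : ∀ a, ∑ x, (if R a x then (1 : ℝ) else 0) ≤ d
  inn : ∀ b, ∑ x, (if R x b then (1 : ℝ) else 0) ≤ d
  coo : ∀ a a', a ≠ a' → ∀ b b', R a b → R a' b → R a b' → R a' b' → b = b'

lemma DegOk.d0 {R : V → V → Prop} {d : ℝ} (h : DegOk R d) [Nonempty V] : 0 ≤ d := by
  obtain ⟨a⟩ := ‹Nonempty V›
  refine le_trans (Finset.sum_nonneg fun x _ => ?_) (h.out a)
  split_ifs <;> norm_num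

lemma pn_row {R : V → V → Prop} {d : ℝ} (h : DegOk R d) : ∀ (g : ℕ) (a : V),
    ∑ b, pn R g a b ≤ d ^ g
  | 0, a => by
    rw [pow_zero]
    show ∑ b, (if a = b then (1 : ℝ) else 0) ≤ 1
    rw [Finset.sum_ite_eq]
    simp
  | g + 1, a => by
    have : Nonempty V := ⟨a⟩
    show ∑ b, ∑ x, (if R a x then (1 : ℝ) else 0) * pn R g x b ≤ d ^ (g + 1)
    rw [Finset.sum_comm]
    calc ∑ x, ∑ b, (if R a x then (1 : ℝ) else 0) * pn R g x b
        = ∑ x, (if R a x then (1 : ℝ) else 0) * ∑ b, pn R g x b := by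
          simp only [Finset.mul_sum]
      _ ≤ ∑ x, (if R a x then (1 : ℝ) else 0) * d ^ g := by
          refine Finset.sum_le_sum fun x _ => mul_le_mul_of_nonneg_left (pn_row h g x) ?_
          split_ifs <;> norm_num
      _ = (∑ x, (if R a x then (1 : ℝ) else 0)) * d ^ g := by rw [Finset.sum_mul]
      _ ≤ d * d ^ g := mul_le_mul_of_nonneg_right (h.out a) (pow_nonneg h.d0 g)
      _ = d ^ (g + 1) := by rw [pow_succ]; ring

lemma pn_col {R : V → V → Prop} {d : ℝ} (h : DegOk R d) : ∀ (g : ℕ) (b : V),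
    ∑ a, pn R g a b ≤ d ^ g
  | 0, b => by
    rw [pow_zero]
    show ∑ a, (if a = b then (1 : ℝ) else 0) ≤ 1
    rw [Finset.sum_ite_eq']
    simp
  | g + 1, b => by
    have : Nonempty V := ⟨b⟩
    show ∑ a, ∑ x, (if R a x then (1 : ℝ) else 0) * pn R g x b ≤ d ^ (g + 1)
    rw [Finset.sum_comm]
    calc ∑ x, ∑ a, (if R a x then (1 : ℝ) else 0) * pn R g x b
        = ∑ x, (∑ a, (if R a x then (1 : ℝ) else 0)) * pn R g x b := by
          simp only [Finset.sum_mul]
      _ ≤ ∑ x, d * pn R g x b := by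
          refine Finset.sum_le_sum fun x _ =>
            mul_le_mul_of_nonneg_right (h.inn x) (pn_nonneg R g x b)
      _ = d * ∑ x, pn R g x b := by rw [Finset.mul_sum]
      _ ≤ d * d ^ g := mul_le_mul_of_nonneg_left (pn_col h g b) h.d0
      _ = d ^ (g + 1) := by rw [pow_succ]; ring

lemma pn_sup {R : V → V → Prop} {d : ℝ} (h : DegOk R d) (g : ℕ) (a b : V) :
    pn R (g + 1) a b ≤ d ^ g := by
  rw [pn_succ']
  refine le_trans (Finset.sum_le_sum fun x _ => ?_) (pn_row h g a)
  split_ifs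
  · rw [mul_one]
  · rw [mul_zero]; exact pn_nonneg R g a x

/-- the codegree is at most one, in the second form -/
lemma DegOk.coi {R : V → V → Prop} {d : ℝ} (h : DegOk R d) (b b' : V) (hb : b ≠ b') (a a' : V)
    (h1 : R a b) (h2 : R a b') (h3 : R a' b) (h4 : R a' b') : a = a' := by
  by_contra hne
  exact hb (h.coo a a' hne b b' h1 h3 h2 h4)

lemma pn_two (R : V → V → Prop) (a b : V) :
    pn R 2 a b = ∑ x, (if R a x then 1 else 0) * (if R x b then 1 else 0) := by
  show ∑ x, (if R a x then (1 : ℝ) else 0) * pn R 1 x b = _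
  simp only [pn_one]

/-- `∑_b N_2(a,b)² ≤ 2 d²` -/
lemma pn_two_row {R : V → V → Prop} {d : ℝ} (h : DegOk R d) (a : V) :
    ∑ b, (pn R 2 a b) ^ 2 ≤ 2 * d ^ 2 := by
  have : Nonempty V := ⟨a⟩
  have hd := h.d0
  have i0 : ∀ x y : V, (0 : ℝ) ≤ if R x y then 1 else 0 := fun x y => by split_ifs <;> norm_num
  -- expand
  have e1 : ∑ b, (pn R 2 a b) ^ 2 = ∑ x, ∑ y, ((if R a x then (1 : ℝ) else 0) *
      (if R a y then 1 else 0)) * ∑ b, (if R x b then (1 : ℝ) else 0) * (if R y b then 1 else 0) := by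
    simp only [pn_two, sq, Finset.sum_mul_sum]
    rw [Finset.sum_comm]
    refine Finset.sum_congr rfl fun x _ => ?_
    rw [Finset.sum_comm]
    refine Finset.sum_congr rfl fun y _ => ?_
    rw [Finset.mul_sum]
    refine Finset.sum_congr rfl fun b _ => ?_
    ring
  rw [e1]
  have hc : ∀ x y : V, ∑ b, (if R x b then (1 : ℝ) else 0) * (if R y b then 1 else 0) ≤
      1 + if x = y then d else 0 := by
    intro x y
    by_cases hxy : x = y
    · subst hxy
      rw [if_pos rfl]
      refine le_trans (Finset.sum_le_sum fun b _ => ?_) (le_trans (h.out x) (by linarith))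
      split_ifs <;> norm_num
    · rw [if_neg hxy, add_zero]
      by_cases he : ∃ b, R x b ∧ R y b
      · obtain ⟨b0, h1, h2⟩ := he
        rw [Finset.sum_eq_single b0]
        · rw [if_pos h1, if_pos h2]; norm_num
        · intro b _ hb
          by_cases h3 : R x b
          · by_cases h4 : R y b
            · exact absurd (h.coo x y hxy b b0 h3 h4 h1 h2) hb
            · rw [if_neg h4, mul_zero]
          · rw [if_neg h3, zero_mul]
        · intro h5
          exact absurd (Finset.mem_univ b0) h5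
      · push Not at he
        rw [Finset.sum_eq_zero]
        · norm_num
        · intro b _
          by_cases h3 : R x b
          · rw [if_neg (he b h3), mul_zero]
          · rw [if_neg h3, zero_mul]
  calc ∑ x, ∑ y, ((if R a x then (1 : ℝ) else 0) * (if R a y then 1 else 0)) *
        ∑ b, (if R x b then (1 : ℝ) else 0) * (if R y b then 1 else 0)
      ≤ ∑ x, ∑ y, ((if R a x then (1 : ℝ) else 0) * (if R a y then 1 else 0)) *
        (1 + if x = y then d else 0) :=
        Finset.sum_le_sum fun x _ => Finset.sum_le_sum fun y _ =>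
          mul_le_mul_of_nonneg_left (hc x y) (mul_nonneg (i0 a x) (i0 a y))
    _ = (∑ x, (if R a x then (1 : ℝ) else 0)) * (∑ y, (if R a y then (1 : ℝ) else 0)) +
        ∑ x, (if R a x then (1 : ℝ) else 0) * d := by
        rw [Finset.sum_mul_sum, ← Finset.sum_add_distrib]
        refine Finset.sum_congr rfl fun x _ => ?_
        simp only [mul_add, mul_one, Finset.sum_add_distrib]
        congr 1
        rw [Finset.sum_eq_single x]
        · rw [if_pos rfl]
          split_ifs <;> ring
        · intro y _ hy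
          have hxy : ¬ x = y := fun h6 => hy h6.symm
          rw [if_neg hxy, mul_zero]
        · intro h5
          exact absurd (Finset.mem_univ x) h5
    _ ≤ d * d + d * d := by
        refine add_le_add (mul_le_mul (h.out a) (h.out a) (Finset.sum_nonneg fun x _ => i0 a x) hd) ?_
        rw [← Finset.sum_mul]
        exact mul_le_mul_of_nonneg_right (h.out a) hd
    _ = 2 * d ^ 2 := by ring

/-- the reversed relation -/
lemma DegOk.rev {R : V → V → Prop} {d : ℝ} (h : DegOk R d) : DegOk (fun x y => R y x) d :=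
  ⟨fun a => h.inn a, fun b => h.out b, fun b b' hb a a' h1 h2 h3 h4 =>
    h.coi b b' hb a a' h1 h2 h3 h4⟩

lemma pn_rev (R : V → V → Prop) : ∀ (g : ℕ) (a b : V), pn (fun x y => R y x) g a b = pn R g b a
  | 0, a, b => by
    show (if a = b then (1 : ℝ) else 0) = if b = a then 1 else 0
    by_cases h : a = b
    · rw [if_pos h, if_pos h.symm]
    · rw [if_neg h, if_neg (fun h' => h h'.symm)]
  | g + 1, a, b => by
    rw [pn_succ' R g b a]
    show ∑ x, (if R x a then (1 : ℝ) else 0) * pn (fun x y => R y x) g x b = _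
    refine Finset.sum_congr rfl fun x _ => ?_
    rw [pn_rev R g x b]
    ring

/-- `∑_a N_2(a,b)² ≤ 2 d²` -/
lemma pn_two_col {R : V → V → Prop} {d : ℝ} (h : DegOk R d) (b : V) :
    ∑ a, (pn R 2 a b) ^ 2 ≤ 2 * d ^ 2 := by
  have h1 := pn_two_row h.rev b
  simp only [pn_rev] at h1
  exact h1

/-- `N_{g+4}(a,b) ≤ 2 d^{g+2}` -/
lemma pn_four {R : V → V → Prop} {d : ℝ} (h : DegOk R d) (g : ℕ) (a b : V) :
    pn R (g + 4) a b ≤ 2 * d ^ (g + 2) := by
  have : Nonempty V := ⟨a⟩
  have h4 : ∀ a b, pn R 4 a b ≤ 2 * d ^ 2 := by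
    intro a b
    rw [show (4 : ℕ) = 2 + 2 from rfl, pn_add]
    have h1 := Finset.sum_mul_sq_le_sq_mul_sq Finset.univ (fun x => pn R 2 a x) (fun x => pn R 2 x b)
    have h2 : (∑ x, pn R 2 a x * pn R 2 x b) ^ 2 ≤ (2 * d ^ 2) * (2 * d ^ 2) :=
      h1.trans (mul_le_mul (pn_two_row h a) (pn_two_col h b)
        (Finset.sum_nonneg fun x _ => sq_nonneg _) (by positivity))
    have h3 : 0 ≤ ∑ x, pn R 2 a x * pn R 2 x b :=
      Finset.sum_nonneg fun x _ => mul_nonneg (pn_nonneg _ _ _ _) (pn_nonneg _ _ _ _)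
    have h5 : (0 : ℝ) ≤ 2 * d ^ 2 := by positivity
    nlinarith
  rw [pn_add]
  calc ∑ x, pn R g a x * pn R 4 x b ≤ ∑ x, pn R g a x * (2 * d ^ 2) :=
        Finset.sum_le_sum fun x _ => mul_le_mul_of_nonneg_left (h4 x b) (pn_nonneg _ _ _ _)
    _ = (∑ x, pn R g a x) * (2 * d ^ 2) := by rw [Finset.sum_mul]
    _ ≤ d ^ g * (2 * d ^ 2) := mul_le_mul_of_nonneg_right (pn_row h g a) (by positivity)
    _ = 2 * d ^ (g + 2) := by rw [pow_add]; ring

end Pool.Agent.Helper48NP
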