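import Pool.Agent.Helper53_C4W.Stm

/-!
# PRT and CWH: the blocks of increments, and closed walks in a host
-/

set_option autoImplicit false

open scoped BigOperators Classical

noncomputable section

namespace Pool.Agent.C4W.H48

/-- PRT: the blocks. -/
theorem prt : PRTStmt := by
  intro M hM h5
  have hprime : M.Prime := hM.out
  have : NeZero M := ⟨hprime.ne_zero⟩
  have h2 : (2 : ZMod M) ≠ 0 := by
    intro h
    have h1 : ((2 : ℕ) : ZMod M) = 0 := by exact_mod_cast h
    rw [ZMod.natCast_eq_zero_iff] at h1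
    have := Nat.le_of_dvd (by norm_num) h1
    omega
  -- halving
  obtain ⟨hf, hf1, hf2⟩ : ∃ hf : ZMod M → ZMod M, (∀ x, 2 * hf x = x) ∧ (∀ x, hf (2 * x) = x) :=
    ⟨fun x => 2⁻¹ * x, fun x => by
        show 2 * (2⁻¹ * x) = x
        rw [← mul_assoc, mul_inv_cancel₀ h2, one_mul],
      fun x => by
        show 2⁻¹ * (2 * x) = x
        rw [← mul_assoc, inv_mul_cancel₀ h2, one_mul]⟩
  -- a maximal set
  let S : Finset (Finset (ZMod M)) :=
    Finset.univ.filter fun A => (0 : ZMod M) ∉ A ∧ ∀ a ∈ A, 2 * a ∉ A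
  have hSne : S.Nonempty := ⟨∅, by simp [S]⟩
  obtain ⟨A, hAS, hAmax⟩ := Finset.exists_max_image S Finset.card hSne
  have hA0 : (0 : ZMod M) ∉ A := ((Finset.mem_filter.mp hAS).2).1
  have hA2 : ∀ a ∈ A, 2 * a ∉ A := ((Finset.mem_filter.mp hAS).2).2
  have hmax : ∀ x, x ≠ 0 → x ∉ A → hf x ∉ A → 2 * x ∈ A := by
    intro x hx hxA hxh
    by_contra hcon
    have hins : insert x A ∈ S := by
      refine Finset.mem_filter.mpr ⟨Finset.mem_univ _, ?_, ?_⟩
      · rw [Finset.mem_insert, not_or]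
        exact ⟨fun h => hx h.symm, hA0⟩
      · intro a ha
        rw [Finset.mem_insert, not_or]
        rcases Finset.mem_insert.mp ha with rfl | ha
        · refine ⟨fun h => hx ?_, hcon⟩
          have : (2 : ZMod M) * a - a = 0 := by rw [h]; ring
          have h3 : (2 : ZMod M) * a - a = a := by ring
          rw [h3] at this
          exact this
        · refine ⟨fun h => hxh ?_, hA2 a ha⟩
          rw [← h, hf2]
          exact ha
    have h1 := hAmax _ hins
    rw [Finset.card_insert_of_notMem hxA] at h1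
    omega
  have hf0 : ∀ x, x ≠ 0 → hf x ≠ 0 := by
    intro x hx h
    apply hx
    rw [← hf1 x, h, mul_zero]
  have h20 : ∀ x : ZMod M, x ≠ 0 → 2 * x ≠ 0 := fun x hx => mul_ne_zero h2 hx
  -- neither in `A` nor in `2 A`
  let N : ZMod M → Prop := fun x => x ≠ 0 ∧ x ∉ A ∧ hf x ∉ A
  let B : Finset (ZMod M) := Finset.univ.filter fun d => d ≠ 0 ∧ ((d ∈ A ∧ ¬ N (hf d)) ∨ N d)
  let I : ZMod M → Finset (ZMod M) := fun d => if d ∈ A then {d, 2 * d} else {d, 2 * d, 4 * d}
  have h4 : ∀ x : ZMod M, 4 * x = 2 * (2 * x) := fun x => by ring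
  let rt : ZMod M → ZMod M := fun y =>
    if y ∈ A then (if N (hf y) then hf y else y)
    else if hf y ∈ A then (if N (hf (hf y)) then hf (hf y) else hf y) else y
  have hrt : ∀ d ∈ B, ∀ y ∈ I d, rt y = d := by
    intro d hd y hy
    obtain ⟨-, hd0, hd1⟩ := Finset.mem_filter.mp hd
    rcases hd1 with ⟨hdA, hdN⟩ | hdN
    · have hI : I d = {d, 2 * d} := if_pos hdA
      rw [hI, Finset.mem_insert, Finset.mem_singleton] at hy
      rcases hy with rfl | rfl
      · show (if y ∈ A then _ else _) = y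
        rw [if_pos hdA, if_neg hdN]
      · show (if 2 * d ∈ A then _ else _) = d
        rw [if_neg (hA2 d hdA), hf2, if_pos hdA, if_neg hdN]
    · have hI : I d = {d, 2 * d, 4 * d} := if_neg hdN.2.1
      have h2A : 2 * d ∈ A := hmax d hd0 hdN.2.1 hdN.2.2
      rw [hI, Finset.mem_insert, Finset.mem_insert, Finset.mem_singleton] at hy
      rcases hy with rfl | rfl | rfl
      · show (if y ∈ A then _ else _) = y
        rw [if_neg hdN.2.1, if_neg hdN.2.2]
      · show (if 2 * d ∈ A then _ else _) = d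
        rw [if_pos h2A, hf2, if_pos hdN]
      · show (if 4 * d ∈ A then _ else _) = d
        rw [h4, if_neg (hA2 _ h2A), hf2, if_pos h2A, hf2, if_pos hdN]
  refine ⟨B, I, ?_, ?_, ?_⟩
  · intro d hd
    obtain ⟨-, hd0, hd1⟩ := Finset.mem_filter.mp hd
    refine ⟨hd0, ?_⟩
    by_cases h : d ∈ A
    · exact Or.inl (if_pos h)
    · exact Or.inr (if_neg h)
  · intro d hd e he hde
    rw [Finset.disjoint_left]
    intro y hy hy'
    exact hde ((hrt d hd y hy).symm.trans (hrt e he y hy'))
  · intro a ha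
    by_cases haA : a ∈ A
    · by_cases hN : N (hf a)
      · refine ⟨hf a, Finset.mem_filter.mpr ⟨Finset.mem_univ _, hN.1, Or.inr hN⟩, ?_⟩
        show a ∈ (if hf a ∈ A then _ else _)
        rw [if_neg hN.2.1, hf1]
        simp
      · refine ⟨a, Finset.mem_filter.mpr ⟨Finset.mem_univ _, ha, Or.inl ⟨haA, hN⟩⟩, ?_⟩
        show a ∈ (if a ∈ A then _ else _)
        rw [if_pos haA]
        simp
    · by_cases hh : hf a ∈ A
      · by_cases hN : N (hf (hf a))
        · refine ⟨hf (hf a), Finset.mem_filter.mpr ⟨Finset.mem_univ _, hN.1, Or.inr hN⟩, ?_⟩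
          show a ∈ (if hf (hf a) ∈ A then _ else _)
          rw [if_neg hN.2.1, h4, hf1, hf1]
          simp
        · refine ⟨hf a, Finset.mem_filter.mpr ⟨Finset.mem_univ _, hf0 a ha, Or.inl ⟨hh, hN⟩⟩, ?_⟩
          show a ∈ (if hf a ∈ A then _ else _)
          rw [if_pos hh, hf1]
          simp
      · have hN : N a := ⟨ha, haA, hh⟩
        refine ⟨a, Finset.mem_filter.mpr ⟨Finset.mem_univ _, ha, Or.inr hN⟩, ?_⟩
        show a ∈ (if a ∈ A then _ else _)
        rw [if_neg haA]
        simp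

/-- CWH: closed walks in a host are long. -/
theorem cwh : CWHStmt := by
  intro V M hM h d hd σ n hn hσ hstep
  have hprime : M.Prime := hM.out
  have key : ∀ m ≤ n, ∃ c : ℕ, m ≤ c ∧ c ≤ 4 * m ∧ h (σ m) - h (σ 0) = (c : ZMod M) * d := by
    intro m
    induction m with
    | zero => intro _; exact ⟨0, le_rfl, by omega, by simp⟩
    | succ m ih =>
      intro hm
      obtain ⟨c, hc1, hc2, hc3⟩ := ih (by omega)
      have e : h (σ (m + 1)) - h (σ 0) = (h (σ (m + 1)) - h (σ m)) + (h (σ m) - h (σ 0)) := by ring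
      rcases hstep m (by omega) with h1 | h1 | h1
      · exact ⟨c + 1, by omega, by omega, by rw [e, h1, hc3]; push_cast; ring⟩
      · exact ⟨c + 2, by omega, by omega, by rw [e, h1, hc3]; push_cast; ring⟩
      · exact ⟨c + 4, by omega, by omega, by rw [e, h1, hc3]; push_cast; ring⟩
  obtain ⟨c, hc1, hc2, hc3⟩ := key n le_rfl
  rw [hσ, sub_self] at hc3
  have hc4 : (c : ZMod M) = 0 := by
    rcases mul_eq_zero.mp hc3.symm with h1 | h1
    · exact h1
    · exact absurd h1 hd
  rw [ZMod.natCast_eq_zero_iff] at hc4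
  have := Nat.le_of_dvd (by omega) hc4
  omega

end Pool.Agent.C4W.H48
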